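import Mathlib
import Pool.Agent.Helper89.RMax.Statement
import Pool.Agent.Helper89.RMax.Bridge

/-!
# `r_max(m) ≤ C / √(∑ m_i²)` fails for every constant `C`

The definitions (real singular cohomology, the classes `ω_{ab}`, ordered forests, shapes and
`r_max`) are in `Pool.Agent.Helper89.RMax.Statement`, the proof in `Pool.Agent.Helper89.RMax.*`.

Idea of the proof. Work with disks of radius one in a disk of radius `R = 2^k`. A block is a torus
family of such disks. Given blocks in disjoint disks `D_1, …, D_p` inside a disk of radius `R`, let
the centres of the `D_i` rotate about the common centre by a new angle, and join the marked trees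
of the first two blocks by an edge; the other blocks are guests. The new edge sees the new angle
and only it, so the class of the forest restricts to a generator of the top cohomology of the
torus. The first two disks have radius `R / 2`; the guests fill the rest of the disk up to
`ε` by the Vitali covering theorem, and `∑ m_i² / R²` grows without bound.
-/

set_option autoImplicit false

namespace Pool.Agent.Results.MP_075f54_gt.RmaxUnbounded

open Pool.Agent.Helper89.DiskRadius

/-- For every constant `C` there is a nonempty finite multiset `m` of integers `≥ 2` with
`r_max(m) > C / √(∑ m_i²)`. -/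
theorem result (C : ℝ) : ∃ m : Multiset ℕ, m ≠ 0 ∧ (∀ a ∈ m, 2 ≤ a) ∧
    C / Real.sqrt ((m.map (fun a : ℕ => (a : ℝ) ^ 2)).sum) < rmax m := by
  obtain ⟨m, h0, h1, h2⟩ := Pool.Agent.Helper89.RMax.main C
  exact ⟨m, h0, h1, by rwa [rmax_eq]⟩

end Pool.Agent.Results.MP_075f54_gt.RmaxUnbounded
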